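import Mathlib
import Pool.Agent.TH949.TX.Defs

set_option autoImplicit false

open Complex MeasureTheory Set Filter Topology
open Pool.Agent.W189.TP (DS)

namespace TH656.TX

open Pool.Agent.TH949.TX

theorem sqrt_c {x : ℝ} (hx : 0 ≤ x) : ((x : ℝ) : ℂ) ^ (1 / 2 : ℂ) = (Real.sqrt x : ℂ) := by
  rw [Real.sqrt_eq_rpow, Complex.ofReal_cpow hx]
  norm_num

theorem gk_even (κ u : ℝ) : gk κ (-u) = gk κ u := by
  unfold gk
  rw [neg_sq]

/-- Gaussian line integral -/
theorem line {κ : ℝ} (hκ : 0 < κ) (a x : ℝ) :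
    (∫ v : ℝ, cexp (κ * ((a : ℂ) + v * I) ^ 2 + ((a : ℂ) + v * I) * x)) =
      2 * Real.pi * (gk κ x : ℂ) := by
  have hκc : (κ : ℂ) ≠ 0 := by exact_mod_cast hκ.ne'
  have h1 : ∀ v : ℝ, cexp (κ * ((a : ℂ) + v * I) ^ 2 + ((a : ℂ) + v * I) * x) =
      cexp ((-κ : ℂ) * (v : ℂ) ^ 2 + (I * (2 * κ * a + x)) * v + (κ * a ^ 2 + a * x)) := by
    intro v
    congr 1
    linear_combination (κ * (v : ℂ) ^ 2) * I_sq
  simp_rw [h1]
  rw [integral_cexp_quadratic (by simpa using hκ)]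
  have h2 : (κ : ℂ) * a ^ 2 + a * x - (I * (2 * κ * a + x)) ^ 2 / (4 * (-κ)) =
      ((-(x ^ 2 / (4 * κ)) : ℝ) : ℂ) := by
    push_cast
    rw [mul_pow, I_sq]
    field_simp
    ring
  rw [h2]
  have h3 : (Real.pi : ℂ) / - -(κ : ℂ) = ((Real.pi / κ : ℝ) : ℂ) := by
    push_cast; rw [neg_neg]
  rw [h3, sqrt_c (by positivity), ← Complex.ofReal_exp]
  unfold gk
  rw [← Complex.ofReal_mul]
  have h4 : (2 : ℂ) * Real.pi = ((2 * Real.pi : ℝ) : ℂ) := by push_cast; ring
  rw [h4, ← Complex.ofReal_mul]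
  congr 1
  rw [← mul_assoc]
  congr 1
  have hpi := Real.pi_pos
  have e1 : Real.sqrt (Real.pi / κ) * Real.sqrt (4 * Real.pi * κ) = 2 * Real.pi := by
    rw [← Real.sqrt_mul (by positivity)]
    have : Real.pi / κ * (4 * Real.pi * κ) = (2 * Real.pi) ^ 2 := by
      field_simp; ring
    rw [this, Real.sqrt_sq (by positivity)]
  have e2 : 0 < Real.sqrt (4 * Real.pi * κ) := Real.sqrt_pos.mpr (by positivity)
  rw [← e1]
  field_simp

theorem shift_eq {κ : ℝ} (hκ : 0 < κ) (Y : ℝ) (z : ℂ) (u : ℝ) :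
    cexp (z * u) * (gk κ (u - Y) : ℂ) = ((Real.sqrt (4 * Real.pi * κ))⁻¹ : ℂ) *
      cexp (-((1 / (4 * κ) : ℝ) : ℂ) * (u : ℂ) ^ 2 + (z + Y / (2 * κ)) * u +
        (-(Y : ℂ) ^ 2 / (4 * κ))) := by
  have hκc : (κ : ℂ) ≠ 0 := by exact_mod_cast hκ.ne'
  unfold gk
  push_cast
  rw [mul_left_comm, ← Complex.exp_add]
  congr 2
  field_simp
  ring

theorem shift_int {κ : ℝ} (hκ : 0 < κ) (Y : ℝ) (z : ℂ) :
    Integrable (fun u : ℝ => cexp (z * u) * (gk κ (u - Y) : ℂ)) := by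
  simp_rw [shift_eq hκ Y z]
  apply Integrable.const_mul
  apply integrable_cexp_quadratic
  rw [Complex.ofReal_re]
  positivity

theorem shift_val {κ : ℝ} (hκ : 0 < κ) (Y : ℝ) (z : ℂ) :
    (∫ u : ℝ, cexp (z * u) * (gk κ (u - Y) : ℂ)) = cexp (κ * z ^ 2 + z * Y) := by
  have hκc : (κ : ℂ) ≠ 0 := by exact_mod_cast hκ.ne'
  have hpi := Real.pi_pos
  simp_rw [shift_eq hκ Y z]
  rw [integral_const_mul]
  have hb : (-((1 / (4 * κ) : ℝ) : ℂ)).re < 0 := by
    rw [Complex.neg_re, Complex.ofReal_re]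
    have : 0 < 1 / (4 * κ) := by positivity
    linarith
  rw [integral_cexp_quadratic hb]
  have h3 : (Real.pi : ℂ) / - -((1 / (4 * κ) : ℝ) : ℂ) = ((4 * Real.pi * κ : ℝ) : ℂ) := by
    push_cast; rw [neg_neg]; field_simp
  rw [h3, sqrt_c (by positivity), ← mul_assoc]
  have e2 : 0 < Real.sqrt (4 * Real.pi * κ) := Real.sqrt_pos.mpr (by positivity)
  have e3 : ((Real.sqrt (4 * Real.pi * κ) : ℝ) : ℂ) ≠ 0 := by exact_mod_cast e2.ne'
  rw [inv_mul_cancel₀ e3, one_mul]
  congr 1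
  push_cast
  field_simp
  ring

theorem norm_EE (κ Y a v : ℝ) :
    ‖EE κ Y a v‖ = Real.exp (κ * a ^ 2 + a * Y) * Real.exp (-κ * v ^ 2) := by
  unfold EE
  rw [Complex.norm_exp, ← Real.exp_add]
  congr 1
  have : ((κ : ℂ) * ((a : ℂ) + v * I) ^ 2 + ((a : ℂ) + v * I) * Y) =
      ((κ * a ^ 2 + a * Y + -κ * v ^ 2 : ℝ) : ℂ) + ((2 * κ * a * v + v * Y : ℝ) : ℂ) * I := by
    push_cast
    linear_combination (κ * (v : ℂ) ^ 2) * I_sq
  rw [this, Complex.add_re, Complex.ofReal_re]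
  simp only [Complex.mul_re, Complex.ofReal_re, Complex.I_re, mul_zero, Complex.ofReal_im,
    zero_mul, sub_zero, add_zero]

theorem cont_EE (κ Y a : ℝ) : Continuous (fun v : ℝ => EE κ Y a v) := by
  unfold EE
  fun_prop

/-- the product function -/
theorem prod_int {κ a : ℝ} (hκ : 0 < κ) {z : ℂ} (hz : z.re < a) (Y : ℝ) :
    Integrable (Function.uncurry fun (v u : ℝ) => EE κ Y a v * cexp ((z - (a + v * I)) * u))
      ((volume : Measure ℝ).prod (volume.restrict (Ioi 0))) := by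
  have h1 : Integrable (fun v : ℝ => Real.exp (κ * a ^ 2 + a * Y) * Real.exp (-κ * v ^ 2)) :=
    (integrable_exp_neg_mul_sq hκ).const_mul _
  have h2 : Integrable (fun u : ℝ => Real.exp ((z.re - a) * u)) (volume.restrict (Ioi 0)) :=
    integrableOn_exp_mul_Ioi (by linarith) 0
  refine (h1.mul_prod h2).mono' ?_ ?_
  · apply Continuous.aestronglyMeasurable
    have := cont_EE κ Y a
    unfold Function.uncurry
    fun_prop
  · refine Filter.Eventually.of_forall fun p => ?_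
    obtain ⟨v, u⟩ := p
    simp only [Function.uncurry]
    rw [norm_mul, norm_EE, Complex.norm_exp]
    apply le_of_eq
    congr 2
    simp

theorem inner_u {κ a : ℝ} {z : ℂ} (hz : z.re < a) (Y v : ℝ) :
    (∫ u in Ioi (0 : ℝ), EE κ Y a v * cexp ((z - (a + v * I)) * u)) =
      EE κ Y a v / ((a : ℂ) + v * I - z) := by
  rw [integral_const_mul, integral_exp_mul_complex_Ioi (by simp; linarith)]
  have h0 : (a : ℂ) + v * I - z ≠ 0 := by
    intro h
    have := congrArg Complex.re h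
    simp at this
    linarith
  have h1 : z - ((a : ℂ) + v * I) ≠ 0 := by
    intro h
    apply h0
    linear_combination -h
  simp only [Complex.ofReal_zero, mul_zero, Complex.exp_zero]
  field_simp
  ring

theorem inner_v {κ a : ℝ} (hκ : 0 < κ) {z : ℂ} (Y u : ℝ) :
    (∫ v : ℝ, EE κ Y a v * cexp ((z - (a + v * I)) * u)) =
      2 * Real.pi * (cexp (z * u) * (gk κ (u - Y) : ℂ)) := by
  have h1 : ∀ v : ℝ, EE κ Y a v * cexp ((z - (a + v * I)) * u) =
      cexp (z * u) * cexp (κ * ((a : ℂ) + v * I) ^ 2 + ((a : ℂ) + v * I) * ((Y - u : ℝ) : ℂ)) := by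
    intro v
    unfold EE
    rw [← Complex.exp_add, ← Complex.exp_add]
    congr 1
    push_cast
    ring
  simp_rw [h1]
  rw [integral_const_mul, line hκ, ← gk_even κ (u - Y), neg_sub]
  ring

theorem t_polar {κ a : ℝ} (hκ : 0 < κ) {z : ℂ} (hz1 : -1 ≤ z.re) (hz : z.re < a) (Y : ℝ) :
    Integrable (fun v : ℝ => EE κ Y a v / ((a : ℂ) + v * I - z)) ∧
    ‖(∫ v : ℝ, EE κ Y a v / ((a : ℂ) + v * I - z)) - 2 * Real.pi * cexp (κ * z ^ 2 + z * Y)‖ ≤
      2 * Real.pi * Real.exp (κ - Y) := by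
  have hP := prod_int hκ hz Y
  constructor
  · have h := hP.integral_prod_left
    refine h.congr (Filter.Eventually.of_forall fun v => ?_)
    exact inner_u hz Y v
  · have h1 : (∫ v : ℝ, EE κ Y a v / ((a : ℂ) + v * I - z)) =
        ∫ v : ℝ, ∫ u in Ioi (0 : ℝ), EE κ Y a v * cexp ((z - (a + v * I)) * u) := by
      refine integral_congr_ae (Filter.Eventually.of_forall fun v => ?_)
      exact (inner_u hz Y v).symm
    rw [h1, integral_integral_swap hP]
    simp_rw [inner_v hκ Y]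
    rw [integral_const_mul]
    have hI := shift_int hκ Y z
    have h2 := intervalIntegral.integral_Iic_add_Ioi (b := (0 : ℝ)) hI.integrableOn hI.integrableOn
    rw [shift_val hκ Y z] at h2
    have h3 : (∫ u in Ioi (0 : ℝ), cexp (z * u) * (gk κ (u - Y) : ℂ)) -
        cexp (κ * z ^ 2 + z * Y) = - ∫ u in Iic (0 : ℝ), cexp (z * u) * (gk κ (u - Y) : ℂ) := by
      rw [← h2]; ring
    rw [← mul_sub, h3, norm_mul, norm_neg]
    have h4 : ‖(2 : ℂ) * Real.pi‖ = 2 * Real.pi := by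
      rw [norm_mul, Complex.norm_real, Real.norm_of_nonneg Real.pi_pos.le]; simp
    rw [h4]
    refine mul_le_mul_of_nonneg_left ?_ (by positivity)
    -- comparison
    have hJ := shift_int hκ Y (-1)
    have hJn := hJ.norm
    have hgk : ∀ u, 0 ≤ gk κ u := fun u => by unfold gk; positivity
    have hn : ∀ (w : ℂ) (u : ℝ), ‖cexp (w * u) * (gk κ (u - Y) : ℂ)‖ =
        Real.exp (w.re * u) * gk κ (u - Y) := by
      intro w u
      rw [norm_mul, Complex.norm_exp, Complex.norm_real, Real.norm_of_nonneg (hgk _)]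
      simp
    have hval : (∫ u : ℝ, Real.exp (-1 * u) * gk κ (u - Y)) = Real.exp (κ - Y) := by
      have h := shift_val hκ Y (-1)
      have e : ∀ u : ℝ, cexp ((-1 : ℂ) * u) * (gk κ (u - Y) : ℂ) =
          ((Real.exp (-1 * u) * gk κ (u - Y) : ℝ) : ℂ) := by
        intro u; push_cast; rfl
      simp_rw [e] at h
      rw [integral_complex_ofReal] at h
      have h' : (((∫ u : ℝ, Real.exp (-1 * u) * gk κ (u - Y)) : ℝ) : ℂ) =
          ((Real.exp (κ - Y) : ℝ) : ℂ) := by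
        rw [h]; push_cast; ring_nf
      exact_mod_cast h'
    have hJr : Integrable (fun u : ℝ => Real.exp (-1 * u) * gk κ (u - Y)) := by
      refine hJn.congr (Filter.Eventually.of_forall fun u => ?_)
      simp only [hn]
      simp
    calc ‖∫ u in Iic (0 : ℝ), cexp (z * u) * (gk κ (u - Y) : ℂ)‖
        ≤ ∫ u in Iic (0 : ℝ), ‖cexp (z * u) * (gk κ (u - Y) : ℂ)‖ := norm_integral_le_integral_norm _
      _ ≤ ∫ u in Iic (0 : ℝ), Real.exp (-1 * u) * gk κ (u - Y) := by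
          refine setIntegral_mono_on hI.norm.integrableOn hJr.integrableOn measurableSet_Iic ?_
          intro u hu
          rw [hn]
          refine mul_le_mul_of_nonneg_right (Real.exp_le_exp.mpr ?_) (hgk _)
          have : u ≤ 0 := hu
          nlinarith
      _ ≤ ∫ u : ℝ, Real.exp (-1 * u) * gk κ (u - Y) :=
          setIntegral_le_integral hJr
            (Filter.Eventually.of_forall fun u => mul_nonneg (Real.exp_pos _).le (hgk _))
      _ = Real.exp (κ - Y) := hval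

end TH656.TX
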